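import Mathlib

set_option autoImplicit false

/-! Takagi factorisation of complex symmetric matrices (helper10). -/

namespace Pool.Agent.H10.Tak

open Module
open scoped ComplexConjugate

/-- eigenvector of an antilinear symmetric map -/
theorem exists_eig {E : Type} [NormedAddCommGroup E] [InnerProductSpace ℂ E]
    [FiniteDimensional ℂ E] [Nontrivial E] (T : E →ₗ⋆[ℂ] E)
    (hT : ∀ x y, inner ℂ (T x) y = inner ℂ (T y) x) :
    ∃ (u : E) (s : ℝ), ‖u‖ = 1 ∧ 0 ≤ s ∧ T u = (s : ℂ) • u := by
  let B : E →ₗ[ℂ] E := T.comp T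
  obtain ⟨μ, hμ⟩ := Module.End.exists_eigenvalue B
  obtain ⟨x, hx⟩ := hμ.exists_hasEigenvector
  have hx0 : x ≠ 0 := hx.2
  have hBx : T (T x) = μ • x := hx.apply_eq_smul
  have h1 : inner ℂ (T (T x)) x = inner ℂ (T x) (T x) := hT _ _
  rw [hBx, inner_smul_left, inner_self_eq_norm_sq_to_K, inner_self_eq_norm_sq_to_K] at h1
  have hxn : (‖x‖ : ℝ) ≠ 0 := norm_ne_zero_iff.2 hx0
  obtain ⟨s, hs, hμs⟩ : ∃ s : ℝ, 0 ≤ s ∧ μ = ((s : ℂ)) ^ 2 := by
    refine ⟨‖T x‖ / ‖x‖, by positivity, ?_⟩
    have h2 : conj μ = ((‖T x‖ : ℂ) / (‖x‖ : ℂ)) ^ 2 := by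
      have hxc : (‖x‖ : ℂ) ≠ 0 := by exact_mod_cast hxn
      rw [div_pow, eq_div_iff (pow_ne_zero 2 hxc)]
      exact h1
    have h3 := congrArg conj h2
    rw [Complex.conj_conj] at h3
    rw [h3]
    push_cast
    rw [map_pow, map_div₀, Complex.conj_ofReal, Complex.conj_ofReal]
  -- normalise
  have key : ∀ v : E, v ≠ 0 → T v = (s : ℂ) • v → ∃ (u : E) (s : ℝ), ‖u‖ = 1 ∧ 0 ≤ s ∧
      T u = (s : ℂ) • u := by
    intro v hv hTv
    have hvn : (‖v‖ : ℝ) ≠ 0 := norm_ne_zero_iff.2 hv
    refine ⟨((‖v‖⁻¹ : ℝ) : ℂ) • v, s, ?_, hs, ?_⟩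
    · rw [norm_smul, Complex.norm_real, norm_inv, norm_norm]
      exact inv_mul_cancel₀ hvn
    · rw [map_smulₛₗ, hTv, Complex.conj_ofReal, smul_comm]
  by_cases hv : T x + (s : ℂ) • x = 0
  · refine key (Complex.I • x) (smul_ne_zero Complex.I_ne_zero hx0) ?_
    rw [map_smulₛₗ, Complex.conj_I, eq_neg_of_add_eq_zero_left hv, smul_neg, neg_smul, neg_neg,
      smul_comm]
  · refine key _ hv ?_
    rw [map_add, map_smulₛₗ, hBx, Complex.conj_ofReal, hμs, smul_add, smul_smul, add_comm, pow_two]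

/-- orthonormal basis of eigenvectors of an antilinear symmetric map -/
theorem exists_basis (n : ℕ) : ∀ (E : Type) [NormedAddCommGroup E] [InnerProductSpace ℂ E]
    [FiniteDimensional ℂ E], finrank ℂ E = n → ∀ (T : E →ₗ⋆[ℂ] E),
    (∀ x y, inner ℂ (T x) y = inner ℂ (T y) x) →
    ∃ (v : Fin n → E) (s : Fin n → ℝ), Orthonormal ℂ v ∧ (∀ i, 0 ≤ s i) ∧
      ∀ i, T (v i) = (s i : ℂ) • v i := by
  induction n with
  | zero =>
    intro E _ _ _ _ T _
    refine ⟨fun i => i.elim0, fun i => i.elim0, ⟨fun i => i.elim0, fun i => i.elim0⟩,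
      fun i => i.elim0, fun i => i.elim0⟩
  | succ n ih =>
    intro E _ _ _ hE T hT
    have : Nontrivial E := nontrivial_of_finrank_pos (R := ℂ) (by omega)
    obtain ⟨u, s0, hu, hs0, hTu⟩ := exists_eig T hT
    set K : Submodule ℂ E := (ℂ ∙ u)ᗮ with hK
    have hu0 : u ≠ 0 := by
      intro h
      rw [h, norm_zero] at hu
      exact zero_ne_one hu
    have hKn : finrank ℂ K = n := by
      have : Fact (finrank ℂ E = n + 1) := ⟨hE⟩
      exact Submodule.finrank_orthogonal_span_singleton hu0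
    have hinv : ∀ y : K, T (y : E) ∈ K := by
      intro y
      refine Submodule.mem_orthogonal_singleton_iff_inner_left.2 ?_
      have := (Submodule.mem_orthogonal_singleton_iff_inner_right).1 y.2
      rw [hT, hTu, inner_smul_left, this, mul_zero]
    obtain ⟨v, s, hv, hs, hTv⟩ := ih K hKn ((T.domRestrict K).codRestrict K hinv) (by
      intro x y
      exact hT x y)
    refine ⟨Fin.cons u (fun i => (v i : E)), Fin.cons s0 s, ?_, ?_, ?_⟩
    · rw [orthonormal_iff_ite]
      intro i j
      rw [orthonormal_iff_ite] at hv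
      refine Fin.cases ?_ (fun i' => ?_) i
      · refine Fin.cases ?_ (fun j' => ?_) j
        · simp [inner_self_eq_norm_sq_to_K, hu]
        · have := (Submodule.mem_orthogonal_singleton_iff_inner_right).1 (v j').2
          simpa [(Fin.succ_ne_zero j').symm] using this
      · refine Fin.cases ?_ (fun j' => ?_) j
        · have := (Submodule.mem_orthogonal_singleton_iff_inner_left).1 (v i').2
          simpa [Fin.succ_ne_zero] using this
        · simpa using hv i' j'
    · intro i
      refine Fin.cases hs0 (fun i' => ?_) i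
      simpa using hs i'
    · intro i
      refine Fin.cases (by simpa using hTu) (fun i' => ?_) i
      have := congrArg (Subtype.val) (hTv i')
      simpa using this

/-- **Takagi factorisation.** -/
theorem takagi {n : ℕ} (A : Matrix (Fin n) (Fin n) ℂ) (hA : A.transpose = A) :
    ∃ U ∈ Matrix.unitaryGroup (Fin n) ℂ, ∃ s : Fin n → ℝ, (∀ i, 0 ≤ s i) ∧
      U.transpose * A * U = Matrix.diagonal (fun i => (s i : ℂ)) := by
  let T : EuclideanSpace ℂ (Fin n) →ₗ⋆[ℂ] EuclideanSpace ℂ (Fin n) :=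
    { toFun := fun x => WithLp.toLp 2 (fun i => conj (A.mulVec x.ofLp i))
      map_add' := by
        intro x y
        ext i
        simp [Matrix.mulVec_add]
      map_smul' := by
        intro c x
        ext i
        simp [Matrix.mulVec_smul] }
  have hTa : ∀ x i, T x i = conj (A.mulVec x.ofLp i) := fun x i => rfl
  have hin : ∀ x y, inner ℂ (T x) y = ∑ i, ∑ j, A i j * x j * y i := by
    intro x y
    rw [PiLp.inner_apply]
    refine Finset.sum_congr rfl fun i _ => ?_
    rw [hTa, RCLike.inner_apply, Complex.conj_conj, Matrix.mulVec, dotProduct, Finset.mul_sum]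
    refine Finset.sum_congr rfl fun j _ => ?_
    ring
  have hT : ∀ x y, inner ℂ (T x) y = inner ℂ (T y) x := by
    intro x y
    rw [hin, hin, Finset.sum_comm]
    refine Finset.sum_congr rfl fun i _ => Finset.sum_congr rfl fun j _ => ?_
    have : A j i = A i j := congrFun (congrFun hA i) j
    rw [this]
    ring
  obtain ⟨v, s, hv, hs, hTv⟩ := exists_basis n (EuclideanSpace ℂ (Fin n)) (by simp) T hT
  refine ⟨Matrix.of fun i j => v j i, ?_, s, hs, ?_⟩
  · rw [Matrix.mem_unitaryGroup_iff']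
    ext i j
    rw [orthonormal_iff_ite] at hv
    have := hv i j
    rw [PiLp.inner_apply] at this
    rw [Matrix.mul_apply, Matrix.one_apply, ← this]
    refine Finset.sum_congr rfl fun k _ => ?_
    rw [RCLike.inner_apply, mul_comm]
    rfl
  · ext i j
    rw [orthonormal_iff_ite] at hv
    have h1 : ∀ k, A.mulVec (v j).ofLp k = (s j : ℂ) * conj (v j k) := by
      intro k
      have h2 := congrArg (fun x : EuclideanSpace ℂ (Fin n) => conj (x k)) (hTv j)
      simpa [hTa] using h2
    have h3 : ((Matrix.of fun i j => v j i).transpose * A * (Matrix.of fun i j => v j i)) i j =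
        ∑ k, v i k * A.mulVec (v j).ofLp k := by
      rw [Matrix.mul_assoc, Matrix.mul_apply]
      refine Finset.sum_congr rfl fun k _ => ?_
      rfl
    rw [h3, Matrix.diagonal_apply]
    have h4 := hv j i
    rw [PiLp.inner_apply] at h4
    have h5 : ∑ k, v i k * A.mulVec (v j).ofLp k = (s j : ℂ) * ∑ k, inner ℂ (v j k) (v i k) := by
      rw [Finset.mul_sum]
      refine Finset.sum_congr rfl fun k _ => ?_
      rw [h1, RCLike.inner_apply]
      ring
    rw [h5, h4]
    by_cases h : i = j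
    · rw [if_pos h.symm, if_pos h, h, mul_one]
    · rw [if_neg (Ne.symm h), if_neg h, mul_zero]

end Pool.Agent.H10.Tak
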